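import Mathlib
import Pool.Agent.R488.Tri.ModD

/-!
# Five congruences modulo `p^2` for sums of (generalized) central trinomial coefficients

All five congruences of MP_20e244_nt hold for every prime `p > 3`.
-/

set_option autoImplicit false

namespace Pool.Agent.Results.MP_20e244_nt.FiveCongruences

open Finset Polynomial

/-- `T n b c` is the coefficient of `x^n` in `(x^2 + b x + c)^n`. -/
noncomputable def T (n : ℕ) (b c : ℤ) : ℤ := ((X ^ 2 + C b * X + C c : ℤ[X]) ^ n).coeff n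

/-- `x ≡ y (mod p^2)` for rational numbers `x`, `y` with denominators prime to `p`:
`(x - y) / p^2` has denominator prime to `p`. -/
def CongrSq (p : ℕ) (x y : ℚ) : Prop :=
  ¬ p ∣ x.den ∧ ¬ p ∣ y.den ∧ ¬ p ∣ ((x - y) / (p : ℚ) ^ 2).den

/-- the symbol `(p/3)` for a prime `p > 3` -/
def sym3 (p : ℕ) : ℚ := if p % 3 = 1 then 1 else -1

open Pool.Agent.R439.PL Pool.Agent.R439.PL.S4 Pool.Agent.R488.Tri

theorem congr_of_EQ {p : ℕ} [Fact p.Prime] {x y : ℚ} (h : EQ p 2 x y) : CongrSq p x y := by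
  refine ⟨?_, ?_, den_of_I h.2.2⟩
  · have := den_of_I (p := p) (k := 0) (I_zero_iff.2 h.1)
    rwa [pow_zero, div_one] at this
  · have := den_of_I (p := p) (k := 0) (I_zero_iff.2 h.2.1)
    rwa [pow_zero, div_one] at this

theorem leg_neg_one {p n : ℕ} [Fact p.Prime] (hpn : p = 2 * n + 1) (h3 : 3 < p) :
    ((legendreSym p (-1) : ℤ) : ℚ) = (-1) ^ n := by
  rw [legendreSym.at_neg_one (by omega), ZMod.χ₄_eq_neg_one_pow (by omega), show p / 2 = n by omega]
  push_cast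
  rfl

theorem leg_three {p n : ℕ} [hp : Fact p.Prime] (hpn : p = 2 * n + 1) (h3 : 3 < p) :
    ((legendreSym p 3 : ℤ) : ℚ) = (-1) ^ n * s3 p := by
  have h1 : (p : ℤ) ∣ legendreSym p 3 - 3 ^ n := by
    rw [← ZMod.intCast_zmod_eq_zero_iff_dvd]
    push_cast
    rw [legendreSym.eq_pow, show p / 2 = n by omega]
    push_cast
    exact sub_self _
  have h2 : EQ p 1 ((legendreSym p 3 : ℤ) : ℚ) (3 ^ n) := by
    obtain ⟨c, hc⟩ := h1
    refine ⟨int_mem _, by exact_mod_cast int_mem (p := p) (3 ^ n), c, int_mem c, ?_⟩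
    have : ((legendreSym p 3 - 3 ^ n : ℤ) : ℚ) = ((p * c : ℤ) : ℚ) := by rw [hc]
    push_cast at this
    rw [pow_one]
    exact this
  have h4 := (EQ.refl (k := 1) (neg_mem' (p := p) n)).mul (val lam p n hpn h3).2.2.2.2
  have e : (-1 : ℚ) ^ n * (-3) ^ n = 3 ^ n := by rw [← mul_pow]; norm_num
  rw [e] at h4
  have h5 := (h2.trans h4).2.2
  have u2 : U p (2 : ℚ) := by
    have := U_nat (p := p) (k := 2) (by norm_num) (by omega)
    exact_mod_cast this
  have u2' : U p (-2 : ℚ) := ⟨by norm_num, neg_mem u2.2.1, by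
    rw [inv_neg]; exact neg_mem u2.2.2⟩
  have hL : legendreSym p 3 = 1 ∨ legendreSym p 3 = -1 := by
    refine legendreSym.eq_one_or_neg_one _ ?_
    intro h
    have h6 : (p : ℤ) ∣ 3 := (ZMod.intCast_zmod_eq_zero_iff_dvd 3 p).1 h
    have := Int.le_of_dvd (by norm_num) h6
    omega
  have hR : (-1 : ℚ) ^ n * s3 p = 1 ∨ (-1 : ℚ) ^ n * s3 p = -1 := by
    rw [s3]
    rcases neg_one_pow_eq_or ℚ n with h | h <;> rw [h] <;> split_ifs <;> norm_num
  rcases hL with a | a <;> rcases hR with b | b <;> rw [a, b] at h5 ⊢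
  · norm_num
  · exact absurd (by norm_num at h5; exact h5) (u2.not_I (k := 1) (by norm_num))
  · exact absurd (by norm_num at h5; exact h5) (u2'.not_I (k := 1) (by norm_num))
  · norm_num

theorem result (p : ℕ) [Fact p.Prime] (hp : 3 < p) :
    CongrSq p (∑ j ∈ range p, (T j 1 1 : ℚ) * ((2 * j).choose j : ℚ) / 12 ^ j)
      ((3 + 3 ^ (p - 1)) / 4 * sym3 p) ∧
    CongrSq p (∑ j ∈ range ((p - 1) / 2 + 1), (T (2 * j) 4 1 : ℚ) * ((2 * j).choose j : ℚ) / 16 ^ j) 1 ∧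
    CongrSq p (∑ j ∈ range ((p - 1) / 2 + 1),
        (T (2 * j) 4 1 : ℚ) * (((2 * j).choose j : ℚ) / ((j : ℚ) + 1)) / 16 ^ j)
      (4 / 3 * ((legendreSym p 3 : ℚ) - p * (legendreSym p (-1) : ℚ))) ∧
    CongrSq p (∑ j ∈ range ((p - 1) / 2 + 1), (T (2 * j) 3 4 : ℚ) * ((2 * j).choose j : ℚ) / 4 ^ j)
      ((7 - 3 ^ p) / 4 * (legendreSym p (-1) : ℚ)) ∧
    CongrSq p (∑ j ∈ range ((p - 1) / 2 + 1), (T (2 * j) 8 9 : ℚ) * ((2 * j).choose j : ℚ) / 16 ^ j)
      (legendreSym p 3 : ℚ) := by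
  obtain ⟨n, hn⟩ : ∃ n, p = 2 * n + 1 := by
    have := (Fact.out : p.Prime).odd_of_ne_two (by omega)
    exact this
  have e : (p - 1) / 2 = n := by omega
  have hv := val lam
  rw [e, leg_neg_one hn hp, leg_three hn hp]
  exact ⟨congr_of_EQ (c1 hv hn hp), congr_of_EQ (c2 hv hn hp), congr_of_EQ (c3 leg del hv hn hp),
    congr_of_EQ (c4 hv hn hp), congr_of_EQ (c5 hv hn hp)⟩

end Pool.Agent.Results.MP_20e244_nt.FiveCongruences
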